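import Pool.Agent.Helper81K1.MP.Fin

set_option autoImplicit false

/-!
# Montgomery's inequality for periodic coefficients
-/

namespace Pool.Agent.Results.MP_2a1f0e_nt.PeriodicCoefficients

/-- Let `q ≥ 2`, `ε > 0` and `W` be real. There is `K` such that for all `1 ≤ N ≤ T` and all `k ≥ 1` with
`k ^ 2 T ≤ N ^ 2`, for every `k`-periodic `p` with values of modulus at most `1` and every weight `g` of
modulus at most `1` whose total variation on `[N, 2 N]` is at most `W`, the sum over `1 ≤ t ≤ T` of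
`|∑_{N ≤ n ≤ 2 N} p(n) g(n) n ^ {it}| ^ q` is at most `K N ^ ε (N ^ q + N ^ (q / 2) T)`. -/
theorem result (q ε W : ℝ) (hq : 2 ≤ q) (hε : 0 < ε) :
    ∃ K : ℝ, ∀ N T k : ℕ, 1 ≤ N → N ≤ T → 1 ≤ k → k ^ 2 * T ≤ N ^ 2 →
      ∀ p g : ℕ → ℂ, (∀ n, ‖p n‖ ≤ 1) → (∀ n, p (n + k) = p n) → (∀ n, ‖g n‖ ≤ 1) →
        ∑ n ∈ Finset.Ico N (2 * N), ‖g (n + 1) - g n‖ ≤ W →
        ∑ t ∈ Finset.Icc 1 T,
            ‖∑ n ∈ Finset.Icc N (2 * N),
                p n * g n * Complex.exp (Complex.I * (t : ℂ) * ((Real.log (n : ℝ) : ℝ) : ℂ))‖ ^ q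
          ≤ K * (N : ℝ) ^ ε * ((N : ℝ) ^ q + (N : ℝ) ^ (q / 2) * (T : ℝ)) :=
  Pool.Agent.Helper81K1.MP.periodic q ε W hq hε

end Pool.Agent.Results.MP_2a1f0e_nt.PeriodicCoefficients
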