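import Pool.Agent.Helper81K1.MQ.Main

set_option autoImplicit false

/-!
# Montgomery's inequality for Dirichlet polynomials supported on an arithmetic progression
-/

namespace Pool.Agent.Results.MP_2a1f0e_nt.Progressions

/-- Let `q ≥ 2`, `A ≥ 1` and `ε > 0`. There is `K` such that for all `1 ≤ N ≤ T ≤ N ^ A`, all arithmetic
progressions `P = {x, x + k, ..., x + (H - 1) k}` in `[N, 2 N]` and all real `β ≥ 0` with `N ^ β ≤ k` and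
`H ≤ 2 N ^ ((β + √(3 - 2 β)) / 2)`, and for all coefficients `|b_n| ≤ 1` supported on `P`, the sum over
`1 ≤ t ≤ T` of `|∑_{N ≤ n ≤ 2 N} b_n n ^ {it}| ^ q` is at most `K N ^ ε (N ^ q + N ^ (q / 2) T)`. -/
theorem result (q A ε : ℝ) (hq : 2 ≤ q) (hA : 1 ≤ A) (hε : 0 < ε) :
    ∃ K : ℝ, ∀ N T x k H : ℕ, ∀ β : ℝ, 1 ≤ N → N ≤ T → (T : ℝ) ≤ (N : ℝ) ^ A →
      1 ≤ k → 1 ≤ H → N ≤ x → x + k * (H - 1) ≤ 2 * N →
      0 ≤ β → (N : ℝ) ^ β ≤ k → (H : ℝ) ≤ 2 * (N : ℝ) ^ ((β + Real.sqrt (3 - 2 * β)) / 2) →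
      ∀ b : ℕ → ℂ, (∀ n, ‖b n‖ ≤ 1) →
        (∀ n ∈ Finset.Icc N (2 * N), b n ≠ 0 → ∃ a < H, n = x + k * a) →
        ∑ t ∈ Finset.Icc 1 T,
            ‖∑ n ∈ Finset.Icc N (2 * N),
                b n * Complex.exp (Complex.I * (t : ℂ) * ((Real.log (n : ℝ) : ℝ) : ℂ))‖ ^ q
          ≤ K * (N : ℝ) ^ ε * ((N : ℝ) ^ q + (N : ℝ) ^ (q / 2) * (T : ℝ)) := by
  obtain ⟨K, hK⟩ := Pool.Agent.Helper81K1.MQ.main q A hq hA ε hε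
  exact ⟨K, fun N T x k H β h1 h2 h3 h4 h5 h6 h7 h8 h9 h10 b hb1 hb =>
    hK N T x k H β h1 h2 h3 h4 h5 h6 h7 h8 h9 h10 b hb1 hb⟩

end Pool.Agent.Results.MP_2a1f0e_nt.Progressions
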