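import Pool.Agent.Helper22M.Fin

/-!
# Montgomery's conjectures for randomly perturbed integers

The integers `n` are replaced by the real numbers `n + ξ_n` with independent `ξ_n ∈ [0,1]`, the law of
`ξ_n` having a density at most `h_n`, where `1 ≤ h_0 ≤ h_1 ≤ …` (for example `ξ_n` uniform on
`[0, 1 / h_n]`). For the Dirichlet polynomials

`D(t) = ∑_{N ≤ n ≤ 2N} b_n (n + ξ_n) ^ {it}`, `|b_n| ≤ 1`,

the following is true almost surely.

1. (Montgomery's large value conjecture, without loss.) For all large `N`, all `T ≥ 1`, all coefficients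
   `|b_n| ≤ 1` and all `V ≥ 50000 √(h_{2N} N log (N T)) log N`

   `#{1 ≤ t ≤ T : |D(t)| ≥ V} ≤ 50000 h_{2N} N² / V²`.

2. If `h_n = O(n ^ η)` for every `η > 0` then the inequality of Q1 is true: for all `q ≥ 2`, `A ≥ 1`,
   `ε > 0` there is `K` such that for all `N ≤ T ≤ N ^ A` and all coefficients `|b_n| ≤ 1`

   `∑_{1 ≤ t ≤ T} |D(t)| ^ q ≤ K N ^ ε (N ^ q + T N ^ (q / 2))`.

Idea of the proof. Let `W` be a set of `R` points `t` with `|D(t)| ≥ V`, and let
`F(x) = ∑_{t ∈ W} c_t e^{itx}`, `c_t ∈ {1, i, -1, -i}`, be such that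
`R V / 2 ≤ ∑_n |F(log (n + ξ_n))|`. For one trigonometric polynomial with `r` coefficients of modulus
one the numbers of large values at the random points have exponential moments, and this gives, for all
such polynomials with integer frequencies at most `T` at the same time, that at most
`C h N r / τ² + C r log (N T)` of the `|F(log (n + ξ_n))|` exceed `τ` (`Prob`). This is not sufficient for
large `τ`; but a level set of `F` is almost contained in a level set of a polynomial with fewer terms: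
the method of conditional expectations selects a subset `S` of `W` with about `p R` elements such that
`p⁻¹ ∑_{t ∈ S}` approximates `∑_{t ∈ W}` at most of the points, if `p τ² ≥ 16 R` (`Det`). With the
optimal `p` for every dyadic `τ` one gets the bound.
-/

set_option autoImplicit false

open Finset MeasureTheory ProbabilityTheory Filter

namespace Pool.Agent.Results.MP_2a1f0e_nt.RandomlyPerturbedIntegers

/-- `D(t) = ∑_{N ≤ n ≤ 2N} b_n (n + x_n) ^ {it}` -/
noncomputable def D (x : ℕ → ℝ) (N : ℕ) (b : ℕ → ℂ) (t : ℕ) : ℂ :=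
  ∑ n ∈ Icc N (2 * N), b n * Complex.exp (Complex.I * (t : ℂ) * ((Real.log (n + x n) : ℝ) : ℂ))

theorem result {Ω : Type*} [MeasurableSpace Ω] {μ : Measure Ω} [IsProbabilityMeasure μ]
    {ξ : ℕ → Ω → ℝ} (hm : ∀ n, Measurable (ξ n)) (hi : iIndepFun ξ μ)
    (h01 : ∀ n ω, 0 ≤ ξ n ω ∧ ξ n ω ≤ 1) {h : ℕ → ℝ} (hh1 : ∀ n, 1 ≤ h n) (hh : Monotone h)
    (hlaw : ∀ n, ∀ s : Set ℝ, MeasurableSet s → μ (ξ n ⁻¹' s) ≤ ENNReal.ofReal (h n) * volume s) :
    -- large values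
    (∀ᵐ ω ∂μ, ∀ᶠ N : ℕ in atTop, ∀ T : ℕ, 1 ≤ T → ∀ b : ℕ → ℂ, (∀ n, ‖b n‖ ≤ 1) → ∀ V : ℝ,
      50000 * Real.sqrt (h (2 * N) * N * Real.log (N * T)) * Real.log N ≤ V →
      (((Icc 1 T).filter (fun t => V ≤ ‖D (fun n => ξ n ω) N b t‖)).card : ℝ) ≤
        50000 * h (2 * N) * N ^ 2 / V ^ 2) ∧
    -- the inequality of Q1
    ((∀ η : ℝ, 0 < η → ∃ C : ℝ, ∀ n : ℕ, 1 ≤ n → h n ≤ C * (n : ℝ) ^ η) →
      ∀ᵐ ω ∂μ, ∀ q A ε : ℝ, 2 ≤ q → 1 ≤ A → 0 < ε → ∃ K : ℝ,
        ∀ N T : ℕ, 1 ≤ N → N ≤ T → (T : ℝ) ≤ (N : ℝ) ^ A → ∀ b : ℕ → ℂ, (∀ n, ‖b n‖ ≤ 1) →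
          ∑ t ∈ Icc 1 T, ‖D (fun n => ξ n ω) N b t‖ ^ q ≤
            K * (N : ℝ) ^ ε * ((N : ℝ) ^ q + (N : ℝ) ^ (q / 2) * T)) := by
  have hgood := Helper22M.good_ae hm hi h01 hh1 hh hlaw
  refine ⟨?_, fun hsub => ?_⟩
  · filter_upwards [hgood] with ω hω
    filter_upwards [hω, eventually_ge_atTop 3] with N hN hN3 T hT b hb V hV
    exact Helper22M.large (hh1 (2 * N)) hN3 hT (hN (T + 1) (by omega)) hb hV
  · filter_upwards [hgood] with ω hω q A ε hq hA hε
    exact Helper22M.q1 hh1 hω hsub q A ε hq hA hε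

end Pool.Agent.Results.MP_2a1f0e_nt.RandomlyPerturbedIntegers
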