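import Pool.Agent.Helper81K1.SH.Add

set_option autoImplicit false

/-!
# Montgomery's inequality for trigonometric coefficients
-/

namespace Pool.Agent.Results.MP_2a1f0e_nt.TrigonometricCoefficients

/-- Let `q ≥ 2`, `ε > 0` and `W` be real. There is `K` such that for all `1 ≤ N ≤ T ≤ N ^ 2`, all real
frequencies `α_0, ..., α_{m-1}`, all complex `c_j` with `∑ |c_j| ≤ 1` and every weight `g` of modulus at most `1`
whose total variation on `[N, 2 N]` is at most `W`, the sum over `1 ≤ t ≤ T` of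
`|∑_{N ≤ n ≤ 2 N} (∑_j c_j e(α_j n)) g(n) n ^ {it}| ^ q` is at most `K N ^ ε (N ^ q + N ^ (q / 2) T)`. The
constant does not depend on `m`, the `α_j` and the `c_j`. -/
theorem result (q ε W : ℝ) (hq : 2 ≤ q) (hε : 0 < ε) :
    ∃ K : ℝ, ∀ N T : ℕ, 1 ≤ N → N ≤ T → T ≤ N ^ 2 →
      ∀ (m : ℕ) (α : ℕ → ℝ) (c g : ℕ → ℂ), ∑ j ∈ Finset.range m, ‖c j‖ ≤ 1 → (∀ n, ‖g n‖ ≤ 1) →
        ∑ n ∈ Finset.Ico N (2 * N), ‖g (n + 1) - g n‖ ≤ W →
        ∑ t ∈ Finset.Icc 1 T,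
            ‖∑ n ∈ Finset.Icc N (2 * N),
                (∑ j ∈ Finset.range m, c j * Complex.exp (2 * Real.pi * Complex.I * (α j * n))) * g n *
                  Complex.exp (Complex.I * (t : ℂ) * ((Real.log (n : ℝ) : ℝ) : ℂ))‖ ^ q
          ≤ K * (N : ℝ) ^ ε * ((N : ℝ) ^ q + (N : ℝ) ^ (q / 2) * (T : ℝ)) :=
  Pool.Agent.Helper81K1.SH.trig q ε W hq hε

end Pool.Agent.Results.MP_2a1f0e_nt.TrigonometricCoefficients
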